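import Pool.Agent.N240.HK.Stm

/-!
# HK/SEP (helper901): maximal separated sets of directions
-/

set_option autoImplicit false

open MeasureTheory Set

namespace Pool.Agent.N901.HK.SEP

open Pool.Agent.N240.HK (Vec Space dir S_sep)

lemma le_sq {a b : ℝ} (h : a ^ 2 ≤ b ^ 2) (hb : 0 ≤ b) : a ≤ b := by
  by_contra hc
  push Not at hc
  nlinarith

/-- radial projection is a contraction outside the unit ball -/
lemma radial {H : Type*} [NormedAddCommGroup H] [InnerProductSpace ℝ H] {x y : H} (hx : 1 ≤ ‖x‖)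
    (hy : 1 ≤ ‖y‖) : ‖‖x‖⁻¹ • x - ‖y‖⁻¹ • y‖ ≤ ‖x - y‖ := by
  have hx0 : 0 < ‖x‖ := by linarith
  have hy0 : 0 < ‖y‖ := by linarith
  refine le_sq ?_ (norm_nonneg _)
  have e1 : ‖‖x‖⁻¹ • x - ‖y‖⁻¹ • y‖ ^ 2 = 2 - 2 * (‖x‖⁻¹ * ‖y‖⁻¹ * inner ℝ x y) := by
    rw [@norm_sub_sq_real, norm_smul, norm_smul, inner_smul_left, inner_smul_right]
    simp only [norm_inv, norm_norm, conj_trivial]
    rw [inv_mul_cancel₀ hx0.ne', inv_mul_cancel₀ hy0.ne']
    ring
  have e2 : ‖x - y‖ ^ 2 = ‖x‖ ^ 2 - 2 * inner ℝ x y + ‖y‖ ^ 2 := @norm_sub_sq_real H _ _ x y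
  rw [e1, e2]
  have h1 : inner ℝ x y ≤ ‖x‖ * ‖y‖ := real_inner_le_norm x y
  set p := ‖x‖
  set q := ‖y‖
  set z : ℝ := inner ℝ x y
  have h2 : p⁻¹ * q⁻¹ * z = z / (p * q) := by field_simp
  rw [h2]
  have hpq : 1 ≤ p * q := by nlinarith
  have hpq0 : 0 < p * q := by linarith
  have h3 : z / (p * q) * (p * q) = z := div_mul_cancel₀ z hpq0.ne'
  set c := z / (p * q)
  have hc : c ≤ 1 := by
    rw [div_le_one hpq0]; exact h1
  rw [← h3]
  nlinarith [sq_nonneg (p - q), mul_nonneg (sub_nonneg.2 hpq) (sub_nonneg.2 hc)]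

lemma dir_sub_le {d : ℕ} (v w : Vec d) : ‖dir v - dir w‖ ≤ ‖v - w‖ := by
  have hn : ∀ u : Vec d, ‖(WithLp.toLp 2 (u, (1:ℝ)) : Space d)‖ = √(1 + ‖u‖ ^ 2) := by
    intro u
    rw [WithLp.prod_norm_eq_of_L2]
    congr 1
    show ‖u‖ ^ 2 + ‖(1:ℝ)‖ ^ 2 = 1 + ‖u‖ ^ 2
    simp; ring
  have h1 : ∀ u : Vec d, 1 ≤ ‖(WithLp.toLp 2 (u, (1:ℝ)) : Space d)‖ := by
    intro u
    rw [hn]
    exact Real.one_le_sqrt.2 (by nlinarith [sq_nonneg ‖u‖])
  have h2 := radial (h1 v) (h1 w)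
  have e : ∀ u : Vec d, dir u = ‖(WithLp.toLp 2 (u, (1:ℝ)) : Space d)‖⁻¹ • (WithLp.toLp 2 (u, (1:ℝ)) : Space d) := by
    intro u
    rw [hn]
    rfl
  rw [e, e]
  refine h2.trans (le_of_eq ?_)
  rw [← WithLp.toLp_sub, WithLp.prod_norm_eq_of_L2]
  show √(‖v - w‖ ^ 2 + ‖(1:ℝ) - 1‖ ^ 2) = ‖v - w‖
  simp

lemma norm_space_sq {d : ℕ} (z : Space d) : ‖z‖ ^ 2 = ‖z.fst‖ ^ 2 + z.snd ^ 2 := by
  rw [WithLp.prod_norm_sq_eq_of_L2, Real.norm_eq_abs, sq_abs]

lemma dir_lower {d : ℕ} {v w : Vec d} (hv : ‖v‖ ≤ 1) (hw : ‖w‖ ≤ 1) :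
    ‖v - w‖ ≤ 4 * ‖dir v - dir w‖ := by
  set l := √(1 + ‖v‖ ^ 2) with hl
  set m := √(1 + ‖w‖ ^ 2) with hm
  have hl0 : 0 < l := by positivity
  have hm0 : 0 < m := by positivity
  have hl2 : l ≤ 3 / 2 := by
    rw [hl]
    apply Real.sqrt_le_iff.2
    constructor
    · norm_num
    · nlinarith [norm_nonneg v]
  have hm2 : m ≤ 3 / 2 := by
    rw [hm]
    apply Real.sqrt_le_iff.2
    constructor
    · norm_num
    · nlinarith [norm_nonneg w]
  have hm1 : 1 ≤ m := Real.one_le_sqrt.2 (by nlinarith [sq_nonneg ‖w‖])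
  have hD := norm_space_sq (dir v - dir w)
  have e1 : (dir v - dir w).fst = l⁻¹ • v - m⁻¹ • w := rfl
  have e2 : (dir v - dir w).snd = l⁻¹ - m⁻¹ := by
    show l⁻¹ • (1 : ℝ) - m⁻¹ • (1 : ℝ) = _
    rw [smul_eq_mul, smul_eq_mul, mul_one, mul_one]
  set D := ‖dir v - dir w‖ with hDdef
  have hD0 : 0 ≤ D := norm_nonneg _
  have hF : ‖l⁻¹ • v - m⁻¹ • w‖ ≤ D := by
    rw [← e1]
    refine le_sq ?_ hD0
    nlinarith [sq_nonneg (dir v - dir w).snd]
  have hS : |l⁻¹ - m⁻¹| ≤ D := by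
    rw [← e2]
    refine le_sq ?_ hD0
    rw [sq_abs]
    nlinarith [sq_nonneg ‖(dir v - dir w).fst‖]
  have hkey : v - w = l • (l⁻¹ • v - m⁻¹ • w) + (-(l * m * (l⁻¹ - m⁻¹))) • (m⁻¹ • w) := by
    rw [smul_sub, smul_smul, smul_smul, smul_smul, mul_inv_cancel₀ hl0.ne', one_smul]
    have e3 : -(l * m * (l⁻¹ - m⁻¹)) * m⁻¹ = l * m⁻¹ - 1 := by
      field_simp
      ring
    rw [e3, sub_smul, one_smul]
    abel
  have hw' : ‖m⁻¹ • w‖ ≤ 1 := by
    rw [norm_smul, norm_inv, Real.norm_of_nonneg hm0.le]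
    calc m⁻¹ * ‖w‖ ≤ 1 * 1 := mul_le_mul (inv_le_one_of_one_le₀ hm1) hw (norm_nonneg _) zero_le_one
      _ = 1 := one_mul 1
  have n1 : ‖v - w‖ ≤ l * ‖l⁻¹ • v - m⁻¹ • w‖ + (l * m * |l⁻¹ - m⁻¹|) * ‖m⁻¹ • w‖ := by
    conv_lhs => rw [hkey]
    refine (norm_add_le _ _).trans (le_of_eq ?_)
    rw [norm_smul, norm_smul, Real.norm_of_nonneg hl0.le, Real.norm_eq_abs, abs_neg, abs_mul,
      abs_of_pos (mul_pos hl0 hm0)]
  have n2 : l * ‖l⁻¹ • v - m⁻¹ • w‖ ≤ 3 / 2 * D := mul_le_mul hl2 hF (norm_nonneg _) (by norm_num)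
  have n3 : (l * m * |l⁻¹ - m⁻¹|) * ‖m⁻¹ • w‖ ≤ (3 / 2 * (3 / 2) * D) * 1 := by
    refine mul_le_mul ?_ hw' (norm_nonneg _) (by positivity)
    exact mul_le_mul (mul_le_mul hl2 hm2 hm0.le (by norm_num)) hS (abs_nonneg _) (by norm_num)
  linarith

/-- the packing bound -/
lemma pack {d : ℕ} (F : Finset (Vec d)) (v₀ : Vec d) (s r : ℝ) (hs : 0 < s) (hr : 0 ≤ r)
    (hsep : ∀ x ∈ F, ∀ y ∈ F, x ≠ y → s ≤ ‖x - y‖) (hball : ∀ x ∈ F, ‖x - v₀‖ ≤ r * s) :
    (F.card : ℝ) ≤ (2 * r + 1) ^ d := by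
  classical
  have hsub : (⋃ x ∈ F, Metric.ball x (s / 2)) ⊆ Metric.ball v₀ ((2 * r + 1) * (s / 2)) := by
    intro y hy
    simp only [mem_iUnion] at hy
    obtain ⟨x, hx, hy⟩ := hy
    rw [Metric.mem_ball, dist_eq_norm] at hy ⊢
    have h1 := hball x hx
    calc ‖y - v₀‖ = ‖(y - x) + (x - v₀)‖ := by rw [sub_add_sub_cancel]
      _ ≤ ‖y - x‖ + ‖x - v₀‖ := norm_add_le _ _
      _ < s / 2 + r * s := by linarith
      _ = _ := by ring
  have hdis : (F : Set (Vec d)).PairwiseDisjoint fun x => Metric.ball x (s / 2) := by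
    intro x hx y hy hxy
    apply Metric.ball_disjoint_ball
    rw [dist_eq_norm]
    have := hsep x hx y hy hxy
    linarith
  have h1 : volume (⋃ x ∈ F, Metric.ball x (s / 2)) =
      (F.card : ENNReal) * volume (Metric.ball (0 : Vec d) (s / 2)) := by
    rw [measure_biUnion_finset hdis fun x _ => measurableSet_ball]
    have : ∀ x ∈ F, volume (Metric.ball x (s / 2)) = volume (Metric.ball (0 : Vec d) (s / 2)) :=
      fun x _ => Measure.addHaar_ball_center _ _ _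
    rw [Finset.sum_congr rfl this, Finset.sum_const, nsmul_eq_mul]
  have h2 : volume (Metric.ball v₀ ((2 * r + 1) * (s / 2))) =
      ENNReal.ofReal ((2 * r + 1) ^ d) * volume (Metric.ball (0 : Vec d) (s / 2)) := by
    rw [Measure.addHaar_ball_center, Measure.addHaar_ball_mul_of_pos _ _ (by linarith)]
    simp [Vec]
  have h3 := measure_mono (μ := volume) hsub
  rw [h1, h2] at h3
  have h4 : volume (Metric.ball (0 : Vec d) (s / 2)) ≠ 0 :=
    (Metric.measure_ball_pos _ _ (by linarith)).ne'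
  have h5 : volume (Metric.ball (0 : Vec d) (s / 2)) ≠ ⊤ := measure_ball_lt_top.ne
  rw [ENNReal.mul_le_mul_iff_left h4 h5] at h3
  have h6 : ENNReal.ofReal (F.card : ℝ) ≤ ENNReal.ofReal ((2 * r + 1) ^ d) := by
    rw [ENNReal.ofReal_natCast]; exact h3
  exact (ENNReal.ofReal_le_ofReal_iff (by positivity)).1 h6

/-- the number of directions of a separated set -/
lemma card_le {d : ℕ} {δ : ℝ} (h0 : 0 < δ) (h1 : δ < 1) (J : Finset (Vec d))
    (hJ : ∀ v ∈ J, ‖v‖ ≤ 1) (hs : ∀ v ∈ J, ∀ w ∈ J, v ≠ w → δ ≤ ‖dir v - dir w‖) :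
    δ ^ d * (J.card : ℝ) ≤ 3 ^ d := by
  have hp := pack J 0 δ (1 / δ) h0 (by positivity)
    (fun x hx y hy hxy => (hs x hx y hy hxy).trans (dir_sub_le x y)) (fun x hx => by
      rw [sub_zero, one_div, inv_mul_cancel₀ h0.ne']
      exact hJ x hx)
  have h3 : δ * (2 * (1 / δ) + 1) ≤ 3 := by
    have : δ * (2 * (1 / δ) + 1) = 2 + δ := by
      field_simp
    linarith
  calc δ ^ d * (J.card : ℝ) ≤ δ ^ d * (2 * (1 / δ) + 1) ^ d :=
        mul_le_mul_of_nonneg_left hp (by positivity)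
    _ = (δ * (2 * (1 / δ) + 1)) ^ d := (mul_pow _ _ _).symm
    _ ≤ 3 ^ d := pow_le_pow_left₀ (by positivity) h3 d

theorem main : S_sep := by
  classical
  intro d
  set B : ℝ := (volume (Metric.closedBall (0 : Vec d) 1)).toReal with hB
  have hB0 : 0 ≤ B := ENNReal.toReal_nonneg
  refine ⟨3 ^ d + 4 ^ d * B, by positivity, ?_⟩
  intro δ h0 h1 V J₀ hV hJ₀V hJ₀
  -- the cardinals of the separated sets are bounded
  set N : ℕ := ⌊3 ^ d / δ ^ d⌋₊ with hN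
  have hbd : ∀ J : Finset (Vec d), (J : Set (Vec d)) ⊆ V →
      (∀ v ∈ J, ∀ w ∈ J, v ≠ w → δ ≤ ‖dir v - dir w‖) → J.card ≤ N := by
    intro J hJV hJ
    have := card_le h0 h1 J (fun v hv => hV v (hJV hv)) hJ
    apply Nat.le_floor
    rw [le_div_iff₀ (by positivity)]
    linarith
  set P : ℕ → Prop := fun n => ∃ J : Finset (Vec d), J₀ ⊆ J ∧ (J : Set (Vec d)) ⊆ V ∧
    (∀ v ∈ J, ∀ w ∈ J, v ≠ w → δ ≤ ‖dir v - dir w‖) ∧ J.card = n with hP
  have hP0 : P J₀.card := ⟨J₀, Finset.Subset.refl _, hJ₀V, hJ₀, rfl⟩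
  have hPN : ∀ n, P n → n ≤ N := by
    rintro n ⟨J, -, h2, h3, rfl⟩
    exact hbd J h2 h3
  have hsp : P (Nat.findGreatest P N) := Nat.findGreatest_spec (hPN _ hP0) hP0
  obtain ⟨J, hJ1, hJ2, hJ3, hJ4⟩ := hsp
  have hmax : ∀ v ∈ V, ∃ w ∈ J, ‖dir v - dir w‖ < δ := by
    intro v hv
    by_contra hc
    push Not at hc
    have hvJ : v ∉ J := by
      intro hvJ
      have := hc v hvJ
      rw [sub_self, norm_zero] at this
      linarith
    have hPn : P (J.card + 1) := by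
      refine ⟨insert v J, hJ1.trans (Finset.subset_insert _ _), ?_, ?_,
        Finset.card_insert_of_notMem hvJ⟩
      · rw [Finset.coe_insert]
        exact Set.insert_subset hv hJ2
      · intro x hx y hy hxy
        rw [Finset.mem_insert] at hx hy
        rcases hx with rfl | hx
        · rcases hy with rfl | hy
          · exact absurd rfl hxy
          · exact hc y hy
        · rcases hy with rfl | hy
          · rw [norm_sub_rev]
            exact hc x hx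
          · exact hJ3 x hx y hy hxy
    have := Nat.le_findGreatest (hPN _ hPn) hPn
    omega
  refine ⟨J, hJ1, hJ2, hJ3, ?_, ?_⟩
  · have hcov : V ⊆ ⋃ w ∈ J, Metric.closedBall w (4 * δ) := by
      intro v hv
      obtain ⟨w, hw, hvw⟩ := hmax v hv
      simp only [mem_iUnion]
      refine ⟨w, hw, ?_⟩
      rw [Metric.mem_closedBall, dist_eq_norm]
      have := dir_lower (hV v hv) (hV w (hJ2 hw))
      linarith
    have hball : ∀ w : Vec d, volume (Metric.closedBall w (4 * δ)) =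
        ENNReal.ofReal ((4 * δ) ^ d) * volume (Metric.closedBall (0 : Vec d) 1) := by
      intro w
      rw [Measure.addHaar_closedBall' _ _ (by positivity)]
      simp [Vec]
    have hfin : volume (Metric.closedBall (0 : Vec d) 1) ≠ ⊤ := measure_closedBall_lt_top.ne
    calc volume V ≤ volume (⋃ w ∈ J, Metric.closedBall w (4 * δ)) := measure_mono hcov
      _ ≤ ∑ w ∈ J, volume (Metric.closedBall w (4 * δ)) := measure_biUnion_finset_le _ _
      _ = (J.card : ENNReal) *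
          (ENNReal.ofReal ((4 * δ) ^ d) * volume (Metric.closedBall (0 : Vec d) 1)) := by
        rw [Finset.sum_congr rfl fun w _ => hball w, Finset.sum_const, nsmul_eq_mul]
      _ = ENNReal.ofReal (J.card * ((4 * δ) ^ d * B)) := by
        rw [ENNReal.ofReal_mul (by positivity), ENNReal.ofReal_mul (by positivity),
          ENNReal.ofReal_natCast, hB, ENNReal.ofReal_toReal hfin]
      _ ≤ ENNReal.ofReal ((3 ^ d + 4 ^ d * B) * δ ^ d * J.card) := by
        apply ENNReal.ofReal_le_ofReal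
        rw [mul_pow]
        have : 0 ≤ (3 : ℝ) ^ d * δ ^ d * (J.card : ℝ) := by positivity
        nlinarith
  · have := card_le h0 h1 J (fun v hv => hV v (hJ2 hv)) hJ3
    have : 0 ≤ (4 : ℝ) ^ d * B := by positivity
    linarith

end Pool.Agent.N901.HK.SEP
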